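import Pool.Agent.Lib.MP_140312_al_Chain.Main
import Pool.Agent.Lib.MP_140312_al_Chain.Cyclic

/-!
# Hyperbolicity and the chain condition for stabilisers of halfspaces

Let `G` act geometrically on a CAT(0) cube complex with 1-skeleton `X`, and suppose that `G` does
not contain `ℤ × ℤ`. Then the following are equivalent:

* `X` is hyperbolic;
* the common stabilisers of finite families of halfspaces satisfy the descending chain condition
  up to finite index;
* in every flat, the common stabilisers of the vertical hyperplanes `-n, …, n`, or those of the
  horizontal hyperplanes `-n, …, n`, stabilise up to finite index as `n` grows.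

For instance, the last condition holds if nested halfspaces at distance at least `n` always have
virtually cyclic common stabiliser
(`Pool.Agent.Lib.MP_140312_al_Chain.stabilizes_of_cyclic`).
-/

namespace Pool.Agent.Results.MP_140312_al.ChainCondition

open Pool.Agent.Lib.MP_140312_al Pool.Agent.Lib.MP_140312_al_Chain

theorem result {V G : Type*} [Group G] [MulAction G V] (X : SimpleGraph V)
    (hX : IsMedianGraph X) (hG : GeometricAction G X)
    (hZ : ¬ ∃ φ : Multiplicative (ℤ × ℤ) →* G, Function.Injective φ) :
    [IsHyperbolic X, ChainCondition G X,
      ∀ f, IsFlat X f → Stabilizes G (vertical X f) ∨ Stabilizes G (horizontal X f)].TFAE :=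
  main hX hG hZ

end Pool.Agent.Results.MP_140312_al.ChainCondition
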