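import Pool.Agent.Lib.MP_140312_al_Comm.Main

/-!
# Convex cocompact subgroups of infinite index in their commensurator

Let `G` act geometrically on a CAT(0) cube complex with 1-skeleton `X`, and let `M` be an infinite
subgroup of `G` acting cocompactly on a nonempty convex set `Z` of vertices. If `M` has infinite
index in its commensurator in `G` (`relIndex` is `0` exactly for infinite index), then `G`
contains `ℤ × ℤ`.
-/

namespace Pool.Agent.Results.MP_140312_al.CommensuratorIndex

open Pool.Agent.Lib.MP_140312_al Pool.Agent.Lib.MP_140312_al_Comm

theorem result {V G : Type*} [Group G] [MulAction G V] (X : SimpleGraph V)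
    (hX : IsMedianGraph X) (hG : GeometricAction G X) (M : Subgroup G)
    (hM : (M : Set G).Infinite) (Z : Set V) (hMZ : ConvexCocompactOn X M Z)
    (hind : M.relIndex (Subgroup.Commensurable.commensurator M) = 0) :
    ∃ φ : Multiplicative (ℤ × ℤ) →* G, Function.Injective φ :=
  main hX hG M hM Z hMZ hind

end Pool.Agent.Results.MP_140312_al.CommensuratorIndex
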