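import Pool.Agent.Lib.MP_140312_al_Neg.Counterexample

/-!
# A non-hyperbolic group without `ℤ ^ 2` acting geometrically on a CAT(0) square complex

There is a finitely generated group `G` acting geometrically on a CAT(0) square complex with
1-skeleton `X` such that `G` does not contain `ℤ × ℤ`, and neither `X` nor any Cayley graph of `G`
with respect to a finite generating set is hyperbolic.
-/

namespace Pool.Agent.Results.MP_140312_al.Counterexample

open Pool.Agent.Lib.MP_140312_al Pool.Agent.Lib.MP_140312_al_SG

theorem result : ∃ (G : Type) (_ : Group G) (V : Type) (_ : MulAction G V) (X : SimpleGraph V),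
    IsMedianGraph X ∧ IsCAT0SquareComplex X ∧ GeometricAction G X ∧ Group.FG G ∧
      (¬ ∃ φ : Multiplicative (ℤ × ℤ) →* G, Function.Injective φ) ∧
      ¬ IsHyperbolic X ∧
      ∀ T : Set G, T.Finite → Subgroup.closure T = ⊤ →
        ¬ IsHyperbolic (SimpleGraph.mulCayley T) :=
  Pool.Agent.MP_140312_al_Neg.counterexample

end Pool.Agent.Results.MP_140312_al.Counterexample
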