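import Pool.Agent.Lib.MP_140312_al_Sep.Lerf

/-!
# MP_140312_al: flat closing when hyperplane stabilisers are separable

Let `G` act geometrically on a CAT(0) cube complex with 1-skeleton `X`. If every finitely
generated subgroup of `G` is separable (`G` is LERF), or if every flat of `X` has a direction
(vertical or horizontal) and an `n` such that the common stabiliser of any `2 n + 1` consecutive
halfspaces of the flat in this direction is separable in `G`, then `G` contains `ℤ × ℤ` or `X` is
hyperbolic.
-/

namespace Pool.Agent.Results.MP_140312_al.SeparableHyperplanes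

open Pool.Agent.Lib.MP_140312_al Pool.Agent.Lib.MP_140312_al_Chain
  Pool.Agent.Lib.MP_140312_al_Sep

theorem result {V : Type*} {G : Type*} [Group G] [MulAction G V] (X : SimpleGraph V)
    (hX : IsMedianGraph X) (hG : GeometricAction G X)
    (hsep : (∀ H : Subgroup G, H.FG → IsSeparable H) ∨
      ∀ f, IsFlat X f → (∃ n, ∀ a, IsSeparable (window G (vertical X f) a n)) ∨
        (∃ n, ∀ a, IsSeparable (window G (horizontal X f) a n))) :
    (∃ φ : Multiplicative (ℤ × ℤ) →* G, Function.Injective φ) ∨ IsHyperbolic X :=
  Pool.Agent.Lib.MP_140312_al_Sep.main hX hG hsep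

end Pool.Agent.Results.MP_140312_al.SeparableHyperplanes
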